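import Pool.Agent.H56.SS.MUL1

/-!
# Row APY: approximation of `P0` by functions of finitely many coordinates of the past
-/

set_option autoImplicit false
set_option maxHeartbeats 400000

open MeasureTheory ProbabilityTheory Filter Topology Finset

namespace Pool.Agent.H56.SS

open Pool.Agent.H89.MT (I1 X pt z1 o1 m1 IsMult lavg)
open Pool.Agent.H36.RP (S past remote remote_le past_le remote_le_past mulI dil Local T_APX cut
  past_fun)

/-- the point with the given coordinates at `-m, -m-1, ..., -m-H+1` and `0` elsewhere -/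
noncomputable def put (m H : ℕ) (y : Fin H → I1) : X := fun k =>
  if h : (-(m : ℤ) - k).toNat < H ∧ k ≤ -(m : ℤ) then y ⟨(-(m : ℤ) - k).toNat, h.1⟩ else z1

lemma put_cont (m H : ℕ) : Continuous (put m H) := by
  refine continuous_pi fun k => ?_
  unfold put
  by_cases h : (-(m : ℤ) - k).toNat < H ∧ k ≤ -(m : ℤ)
  · simp only [h, and_self, dite_true]
    exact continuous_apply _
  · simp only [h, dite_false]
    exact continuous_const

lemma put_loc (m H : ℕ) (x : X) (k : ℤ) (hk : k ≤ -(m : ℤ)) (hk' : -(m : ℤ) - H < k) :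
    put m H (fun j => x (-((m : ℤ) + (j : ℕ)))) k = x k := by
  have h0 : 0 ≤ -(m : ℤ) - k := by linarith
  have h1 : ((-(m : ℤ) - k).toNat : ℤ) = -(m : ℤ) - k := Int.toNat_of_nonneg h0
  have h : (-(m : ℤ) - k).toNat < H ∧ k ≤ -(m : ℤ) := by
    refine ⟨?_, hk⟩
    have : ((-(m : ℤ) - k).toNat : ℤ) < H := by rw [h1]; linarith
    exact_mod_cast this
  unfold put
  rw [dif_pos h]
  show x (-((m : ℤ) + ((-(m : ℤ) - k).toNat : ℕ))) = x k
  congr 1
  rw [h1]
  ring

theorem pf_APY : T_APY := by
  intro κ _ m ε hε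
  have hm : Measurable[remote] (P0 κ) := stronglyMeasurable_condExp.measurable
  have hPb : ∀ᵐ x ∂κ, |P0 κ x| ≤ 1 := Pool.Agent.H28.DS.P_bdd (κ := κ) 0
  set g : X → ℝ := fun x => max (-1) (min 1 (P0 κ x)) with hg
  have hgm : Measurable[past (-(m : ℤ))] g :=
    (measurable_const.max (measurable_const.min (hm.mono (remote_le_past _) le_rfl)))
  have hgb : ∀ x, |g x| ≤ 1 := fun x =>
    abs_le.2 ⟨le_max_left _ _, max_le (by norm_num) (min_le_left _ _)⟩
  obtain ⟨φ, H, h1, h2, h3, h4⟩ := Pool.Agent.H47.RPR.tAPX κ (-(m : ℤ)) g 1 hgm hgb ε hε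
  refine ⟨H + 1, fun y => max (-1) (min 1 (φ (put m (H + 1) y))), ?_, ?_, ?_⟩
  · exact continuous_const.max (continuous_const.min (h1.comp (put_cont m (H + 1))))
  · exact fun y => abs_le.2 ⟨le_max_left _ _, max_le (by norm_num) (min_le_left _ _)⟩
  · have e1 : ∀ x : X, φ (put m (H + 1) (fun j => x (-((m : ℤ) + (j : ℕ))))) = φ x := by
      intro x
      rw [← past_fun h2 x, ← past_fun h2 (put m (H + 1) (fun j => x (-((m : ℤ) + (j : ℕ)))))]
      refine h3 _ _ fun k hk => ?_
      unfold cut
      by_cases hk1 : k ≤ -(m : ℤ)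
      · rw [if_pos hk1, if_pos hk1]
        refine put_loc m (H + 1) x k hk1 ?_
        have := (abs_le.1 hk).1
        push_cast
        linarith [Int.natCast_nonneg m]
      · rw [if_neg hk1, if_neg hk1]
    have e2 : ∀ᵐ x ∂κ, (P0 κ x - loc m (H + 1)
        (fun y => max (-1) (min 1 (φ (put m (H + 1) y)))) x) ^ 2 ≤ (g x - φ x) ^ 2 := by
      filter_upwards [hPb] with x hx
      have h := abs_le.1 hx
      have h5 : g x = P0 κ x := by
        show max (-1) (min 1 (P0 κ x)) = P0 κ x
        rw [min_eq_right h.2, max_eq_right h.1]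
      have h6 : loc m (H + 1) (fun y => max (-1) (min 1 (φ (put m (H + 1) y)))) x =
          max (-1) (min 1 (φ x)) := by
        show max (-1) (min 1 (φ (put m (H + 1) (fun j => x (-((m : ℤ) + (j : ℕ))))))) =
          max (-1) (min 1 (φ x))
        rw [e1 x]
      have h7 : |g x - max (-1) (min 1 (φ x))| ≤ |g x - φ x| := by
        rw [hg]
        dsimp only
        have h8 : P0 κ x = max (-1) (min 1 (P0 κ x)) := h5.symm
        refine (abs_max_sub_max_le_max _ _ _ _).trans ?_
        rw [sub_self, abs_zero]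
        refine max_le (abs_nonneg _) ?_
        rw [← h8]
        have h9 : min 1 (P0 κ x) = P0 κ x := min_eq_right h.2
        have h10 := abs_min_sub_min_le_max 1 (P0 κ x) 1 (φ x)
        rw [sub_self, abs_zero] at h10
        exact h10.trans (max_le (abs_nonneg _) le_rfl)
      rw [h6, ← h5, ← sq_abs, ← sq_abs (g x - φ x)]
      exact pow_le_pow_left₀ (abs_nonneg _) h7 2
    have hgM : Measurable g := hgm.mono (past_le _) le_rfl
    obtain ⟨D, hD⟩ : ∃ D : ℝ, ∀ x, |φ x| ≤ D := Pool.Agent.H28.DS.bdd_of_cont h1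
    have i2 : Integrable (fun x => (g x - φ x) ^ 2) κ := by
      refine Pool.Agent.H28.DS.int_bdd (C := (1 + D) ^ 2)
        ((hgM.sub h1.measurable).pow_const 2) (Eventually.of_forall fun x => ?_)
      rw [abs_pow]
      exact pow_le_pow_left₀ (abs_nonneg _) ((abs_sub _ _).trans (add_le_add (hgb x) (hD x))) 2
    refine (integral_mono_of_nonneg (Eventually.of_forall fun x => sq_nonneg _) i2 e2).trans h4

end Pool.Agent.H56.SS
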