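import Pool.Agent.H56.SS.RAX

/-!
# Row MUL, part 1: the estimate for means
-/

set_option autoImplicit false
set_option maxHeartbeats 400000

open MeasureTheory ProbabilityTheory Filter Topology Finset

namespace Pool.Agent.H56.SS

open Pool.Agent.H89.MT (I1 X pt z1 o1 m1 IsMult lavg)
open Pool.Agent.H91.LF (Mean Dil Bdd bdd_const bdd_add bdd_mul bdd_smul bdd_sub bdd_sum bdd_comp)
open Pool.Agent.H36.RP (S past remote remote_le mulI dil Local)
open Pool.Agent.H47.RP (sg UC)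
open Pool.Agent.H12.RP (FF pt_val cl cl_eq FF_nat FF_mul dil_cont id_pt)
open Pool.Agent.H12.RPR (sg_abs sg_mul)
open Pool.Agent.H49.RPR (uc_cl dil_pt' sI sI_sq FF_abs)

lemma sgn_eq (t : ℝ) : sgn t = sI t := by
  apply Subtype.ext
  unfold sgn sI sg
  by_cases h : t < 0
  · simp only [h, if_true]
    rfl
  · simp only [h, if_false]
    rfl

lemma sgn_coe (t : ℝ) : ((sgn t : I1) : ℝ) = sg t := by
  rw [sgn_eq]
  rfl

lemma loc_cont (m H : ℕ) {φ : (Fin H → I1) → ℝ} (hφ : Continuous φ) : Continuous (loc m H φ) :=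
  hφ.comp (continuous_pi fun _ => continuous_apply _)

lemma loc_local (m H : ℕ) (φ : (Fin H → I1) → ℝ) : Local (m + H) (loc m H φ) := by
  intro x x' h
  unfold loc
  congr 1
  funext j
  refine h _ ?_
  have h1 : ((j : ℕ) : ℤ) < H := by exact_mod_cast j.2
  rw [abs_neg, abs_of_nonneg (by positivity)]
  push_cast
  omega

lemma loc_abs (m H : ℕ) {φ : (Fin H → I1) → ℝ} (hφ : ∀ y, |φ y| ≤ 1) (x : X) :
    |loc m H φ x| ≤ 1 := hφ _

/-- the mean `M` gives the measure `κ` -/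
def Gives (M : Mean 1) (u : ℕ → I1) (κ : Measure X) : Prop :=
  ∀ G : C(X, ℝ), M.E (fun ω => G (cl (fun k => FF u (ω 0 + k)))) = ∫ x, G x ∂κ

lemma cl_dil (z : ℤ → ℝ) (hz : ∀ k, |z k| ≤ 1) (s : I1) (p : ℕ) :
    cl (fun k => (s : ℝ) * z (p * k)) = dil s p (cl z) := by
  rw [← cl_eq (dil s p (cl z))]
  congr 1
  funext k
  show (s : ℝ) * z (p * k) = (s : ℝ) * ((cl z (p * k) : I1) : ℝ)
  congr 1
  have h := abs_le.1 (hz (p * k))
  unfold cl
  rw [Set.coe_projIcc, min_eq_right h.2, max_eq_right h.1]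

lemma three (x y : ℝ) : (x + y) ^ 2 ≤ 3 / 2 * x ^ 2 + 3 * y ^ 2 := by
  nlinarith [sq_nonneg (x - 2 * y)]

lemma sg_sub (t : ℝ) (ht : |t| ≤ 1) : (sg t - t) ^ 2 ≤ 1 - |t| := by
  have h1 : (sg t - t) ^ 2 = (1 - |t|) ^ 2 := by
    have h2 := sg_mul t
    have h3 : sg t ^ 2 = 1 := by
      rw [← sq_abs, sg_abs, one_pow]
    have h4 : |t| ^ 2 = t ^ 2 := sq_abs t
    nlinarith
  rw [h1]
  have h2 := abs_nonneg t
  nlinarith

/-- the estimate for means, with a constant which does not depend on the mean -/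
theorem claimA (u : ℕ → I1) (hu : IsMult u)
    (hsum : Summable (fun p : ℕ => if p.Prime then (1 - |(u p : ℝ)|) / p else 0))
    (κ : Measure X) (m H : ℕ) (φ : (Fin H → I1) → ℝ) (hφ : Continuous φ)
    (hφ1 : ∀ y, |φ y| ≤ 1) (ε : ℝ) (E : Set ℕ) (hε : 0 < ε) (hE : Thin E)
    (hEp : ∀ p : ℕ, p.Prime → p ∉ E →
      ∫ x, (loc m H φ x - (sgn (u p) : ℝ) * loc m H φ (dil (sgn (u p)) p x)) ^ 2 ∂κ ≤ ε) :
    ∃ C : ℝ, ∀ M : Mean 1, Dil M → Gives M u κ → ∀ F : Finset ℕ, (∀ p ∈ F, p.Prime) →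
      M.E (fun ω => ∑ p ∈ F, (1 / (p : ℝ)) * (loc m H φ (cl fun k => FF u (p * ω 0 + k)) -
        (u p : ℝ) * loc m H φ (cl fun k => FF u (ω 0 + k))) ^ 2) ≤
      C + 3 * ε * ∑ p ∈ F, 1 / (p : ℝ) := by
  classical
  set G : X → ℝ := loc m H φ with hG
  have hGc : Continuous G := loc_cont m H hφ
  have hG1 : ∀ x, |G x| ≤ 1 := loc_abs m H hφ1
  set Φ : (ℤ → ℝ) → ℝ := fun z => G (cl z) with hΦ
  have hUC : UC (m + H) Φ := by
    have h1 := uc_cl hGc (loc_local m H φ) 1 one_pos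
    simp only [div_one] at h1
    exact h1
  obtain ⟨δ, C0, hδ, hC0⟩ := pf_RAX (FF u) (FF_abs u) (FF_mul u hu) (m + H) Φ
    (fun z => hG1 _) hUC ε hε
  set t : ℕ → ℝ := fun p => if p.Prime then (1 - |(u p : ℝ)|) / p else 0 with ht
  have ht0 : ∀ p, 0 ≤ t p := by
    intro p
    change (0 : ℝ) ≤ if p.Prime then (1 - |(u p : ℝ)|) / p else 0
    split_ifs
    · have := abs_le.2 (u p).2
      exact div_nonneg (by linarith) (Nat.cast_nonneg _)
    · exact le_rfl
  have hE0 : ∀ p, 0 ≤ E.indicator (fun n : ℕ => (1 : ℝ) / n) p := fun p =>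
    Set.indicator_nonneg (fun n _ => by positivity) p
  refine ⟨3 * (∑' p, t p) + 4 * ((∑' p, t p) / δ) +
    4 * (∑' p, E.indicator (fun n : ℕ => (1 : ℝ) / n) p) + 4 * C0, ?_⟩
  intro M hM hgive F hF
  -- the function of one prime
  set f : ℕ → (Fin 1 → ℤ) → ℝ := fun p ω => (G (cl fun k => FF u (p * ω 0 + k)) -
    (u p : ℝ) * G (cl fun k => FF u (ω 0 + k))) ^ 2 with hf
  set fs : ℕ → (Fin 1 → ℤ) → ℝ := fun p ω => (Φ (fun k => FF u (p * ω 0 + k)) -
    sg (FF u p) * Φ (fun k => FF u (ω 0 + k))) ^ 2 with hfs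
  have hup : ∀ p : ℕ, |(u p : ℝ)| ≤ 1 := fun p => abs_le.2 (u p).2
  have hf4 : ∀ p ω, 0 ≤ f p ω ∧ f p ω ≤ 4 := by
    intro p ω
    refine ⟨sq_nonneg _, ?_⟩
    have h1 : |G (cl fun k => FF u (p * ω 0 + k)) -
        (u p : ℝ) * G (cl fun k => FF u (ω 0 + k))| ≤ 2 := by
      refine (abs_sub _ _).trans ?_
      rw [abs_mul]
      have h2 := hG1 (cl fun k => FF u (p * ω 0 + k))
      have h3 : |(u p : ℝ)| * |G (cl fun k => FF u (ω 0 + k))| ≤ 1 :=
        mul_le_one₀ (hup p) (abs_nonneg _) (hG1 _)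
      linarith
    have h2 : f p ω = |G (cl fun k => FF u (p * ω 0 + k)) -
        (u p : ℝ) * G (cl fun k => FF u (ω 0 + k))| ^ 2 := (sq_abs _).symm
    rw [h2]
    nlinarith [abs_nonneg (G (cl fun k => FF u (p * ω 0 + k)) -
        (u p : ℝ) * G (cl fun k => FF u (ω 0 + k)))]
  have hfb : ∀ p, Bdd (f p) := fun p => ⟨4, fun ω => abs_le.2 ⟨by linarith [(hf4 p ω).1],
    (hf4 p ω).2⟩⟩
  have hfs4 : ∀ p ω, 0 ≤ fs p ω ∧ fs p ω ≤ 4 := by
    intro p ω
    refine ⟨sq_nonneg _, ?_⟩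
    have h1 : |Φ (fun k => FF u (p * ω 0 + k)) - sg (FF u p) * Φ (fun k => FF u (ω 0 + k))| ≤
        2 := by
      refine (abs_sub _ _).trans ?_
      rw [abs_mul, sg_abs, one_mul]
      have h2 := hG1 (cl fun k => FF u (p * ω 0 + k))
      have h3 := hG1 (cl fun k => FF u (ω 0 + k))
      show |G (cl fun k => FF u (p * ω 0 + k))| + |G (cl fun k => FF u (ω 0 + k))| ≤ 2
      linarith
    have h2 : fs p ω = |Φ (fun k => FF u (p * ω 0 + k)) -
      sg (FF u p) * Φ (fun k => FF u (ω 0 + k))| ^ 2 := (sq_abs _).symm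
    rw [h2]
    nlinarith [abs_nonneg (Φ (fun k => FF u (p * ω 0 + k)) -
      sg (FF u p) * Φ (fun k => FF u (ω 0 + k)))]
  have hfsb : ∀ p, Bdd (fs p) := fun p => ⟨4, fun ω => abs_le.2 ⟨by linarith [(hfs4 p ω).1],
    (hfs4 p ω).2⟩⟩
  have hEf4 : ∀ p, M.E (f p) ≤ 4 := by
    intro p
    have h1 := M.E_mono (hfb p) (bdd_const 4) fun ω => (hf4 p ω).2
    rwa [M.E_const] at h1
  -- the value for the dilations
  set d : ℕ → (Fin 1 → ℤ) → ℝ := fun p ω => (Φ (fun k => FF u (ω 0 + k)) -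
    sg (FF u p) * Φ (fun k => sg (FF u p) * FF u (ω 0 + p * k))) ^ 2 with hd
  have hdE : ∀ p : ℕ, p.Prime → M.E (d p) =
      ∫ x, (G x - (sgn (u p) : ℝ) * G (dil (sgn (u p)) p x)) ^ 2 ∂κ := by
    intro p hp
    have hc : Continuous fun x : X => (G x - (sgn (u p) : ℝ) * G (dil (sgn (u p)) p x)) ^ 2 :=
      (hGc.sub (continuous_const.mul (hGc.comp (dil_cont _ _)))).pow 2
    have h1 := hgive ⟨_, hc⟩
    rw [ContinuousMap.coe_mk] at h1
    rw [← h1]
    congr 1
    funext ω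
    have h2 : FF u p = u p := FF_nat u p hp.pos
    have h3 := cl_dil (fun k => FF u (ω 0 + k)) (fun k => FF_abs u _) (sgn (u p)) p
    rw [hd]
    dsimp only
    rw [← h3, h2, sgn_coe]
  -- the bound for one prime
  have one : ∀ p ∈ F, (1 / (p : ℝ)) * M.E (f p) ≤ 3 * ε * (1 / (p : ℝ)) + 3 * t p +
      4 * (t p / δ) + 4 * E.indicator (fun n : ℕ => (1 : ℝ) / n) p +
      4 * (if 1 - δ ≤ |FF u p| ∧ ε < |M.E (d p) - M.E (fs p)| then (1 : ℝ) / p else 0) := by
    intro p hpF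
    have hp := hF p hpF
    have hp0 : (0 : ℝ) < p := by exact_mod_cast hp.pos
    have hFp : FF u p = u p := FF_nat u p hp.pos
    have h1p : (0 : ℝ) ≤ 1 / p := by positivity
    have hite : (0 : ℝ) ≤ if 1 - δ ≤ |FF u p| ∧ ε < |M.E (d p) - M.E (fs p)| then
        (1 : ℝ) / p else 0 := by
      split_ifs
      · exact h1p
      · exact le_rfl
    have h5 : 0 ≤ t p / δ := div_nonneg (ht0 p) hδ.le
    have h4f : (1 / (p : ℝ)) * M.E (f p) ≤ 4 * (1 / (p : ℝ)) := by
      rw [mul_comm]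
      exact mul_le_mul_of_nonneg_right (hEf4 p) h1p
    have h3e : 0 ≤ 3 * ε * (1 / (p : ℝ)) := by positivity
    by_cases c1 : 1 - δ ≤ |(u p : ℝ)|
    · by_cases c2 : p ∈ E
      · have h6 : E.indicator (fun n : ℕ => (1 : ℝ) / n) p = 1 / p := Set.indicator_of_mem c2 _
        rw [h6]
        linarith [ht0 p]
      · by_cases c3 : ε < |M.E (d p) - M.E (fs p)|
        · rw [if_pos ⟨by rw [hFp]; exact c1, c3⟩]
          linarith [ht0 p, hE0 p]
        · -- the main case
          have c3' := not_lt.1 c3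
          have h6 : M.E (d p) ≤ ε := by
            rw [hdE p hp]
            exact hEp p hp c2
          have h7 : M.E (fs p) ≤ 2 * ε := by
            have h8 := (abs_le.1 c3').1
            linarith
          have h8 : M.E (f p) ≤ 3 / 2 * M.E (fs p) + 3 * (1 - |(u p : ℝ)|) := by
            have h9 := M.E_mono (hfb p) (bdd_add (bdd_smul (3 / 2) (hfsb p))
              (bdd_const (3 * (1 - |(u p : ℝ)|)))) fun ω => by
                have e1 : G (cl fun k => FF u (p * ω 0 + k)) -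
                    (u p : ℝ) * G (cl fun k => FF u (ω 0 + k)) =
                    (G (cl fun k => FF u (p * ω 0 + k)) -
                      sg (u p) * G (cl fun k => FF u (ω 0 + k))) +
                    (sg (u p) - u p) * G (cl fun k => FF u (ω 0 + k)) := by ring
                have e2 := three (G (cl fun k => FF u (p * ω 0 + k)) -
                      sg (u p) * G (cl fun k => FF u (ω 0 + k)))
                    ((sg (u p) - u p) * G (cl fun k => FF u (ω 0 + k)))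
                rw [← e1, mul_pow (sg (u p) - u p)] at e2
                have e3 := sg_sub (u p) (hup p)
                have e4 : G (cl fun k => FF u (ω 0 + k)) ^ 2 ≤ 1 := by
                  rw [← sq_abs]
                  exact pow_le_one₀ (abs_nonneg _) (hG1 _)
                have e5 : (sg (u p) - u p) ^ 2 * G (cl fun k => FF u (ω 0 + k)) ^ 2 ≤
                    1 - |(u p : ℝ)| := by
                  calc _ ≤ (sg (u p) - (u p : ℝ)) ^ 2 * 1 :=
                        mul_le_mul_of_nonneg_left e4 (sq_nonneg _)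
                    _ ≤ _ := by rw [mul_one]; exact e3
                have e6 : fs p ω = (G (cl fun k => FF u (p * ω 0 + k)) -
                      sg (u p) * G (cl fun k => FF u (ω 0 + k))) ^ 2 := by
                  rw [hfs]
                  dsimp only
                  rw [hFp]
                show f p ω ≤ 3 / 2 * fs p ω + 3 * (1 - |(u p : ℝ)|)
                rw [e6]
                show (G (cl fun k => FF u (p * ω 0 + k)) -
                  (u p : ℝ) * G (cl fun k => FF u (ω 0 + k))) ^ 2 ≤ _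
                linarith
            rw [M.add _ _ (bdd_smul (3 / 2) (hfsb p)) (bdd_const _), M.smul _ _ (hfsb p),
              M.E_const] at h9
            exact h9
          have h9 : t p = (1 - |(u p : ℝ)|) * (1 / p) := by
            change (if p.Prime then (1 - |(u p : ℝ)|) / p else 0) = _
            rw [if_pos hp, mul_one_div]
          have h10 : (1 / (p : ℝ)) * M.E (f p) ≤ (1 / (p : ℝ)) * (3 * ε +
              3 * (1 - |(u p : ℝ)|)) := mul_le_mul_of_nonneg_left (by linarith) h1p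
          have h11 : (1 / (p : ℝ)) * (3 * ε + 3 * (1 - |(u p : ℝ)|)) =
              3 * ε * (1 / (p : ℝ)) + 3 * t p := by
            rw [h9]
            ring
          linarith [hE0 p]
    · have h6 : (1 : ℝ) / p ≤ t p / δ := by
        rw [le_div_iff₀ hδ]
        change 1 / (p : ℝ) * δ ≤ if p.Prime then (1 - |(u p : ℝ)|) / p else 0
        rw [if_pos hp, one_div, inv_mul_eq_div]
        refine div_le_div_of_nonneg_right ?_ (by linarith)
        linarith [not_le.1 c1]
      linarith [ht0 p, hE0 p]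
  -- summation
  have hsumE : M.E (fun ω => ∑ p ∈ F, (1 / (p : ℝ)) * f p ω) =
      ∑ p ∈ F, (1 / (p : ℝ)) * M.E (f p) := by
    rw [M.E_sum F (fun p ω => (1 / (p : ℝ)) * f p ω) fun p _ => bdd_smul _ (hfb p)]
    exact sum_congr rfl fun p _ => M.smul _ _ (hfb p)
  show M.E (fun ω => ∑ p ∈ F, (1 / (p : ℝ)) * f p ω) ≤ _
  rw [hsumE]
  refine (sum_le_sum one).trans ?_
  rw [sum_add_distrib, sum_add_distrib, sum_add_distrib, sum_add_distrib, ← mul_sum, ← mul_sum,
    ← mul_sum, ← mul_sum, ← mul_sum, ← sum_div]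
  have a1 : ∑ p ∈ F, t p ≤ ∑' p, t p := hsum.sum_le_tsum F fun p _ => ht0 p
  have a2 : (∑ p ∈ F, t p) / δ ≤ (∑' p, t p) / δ := div_le_div_of_nonneg_right a1 hδ.le
  have a3 : ∑ p ∈ F, E.indicator (fun n : ℕ => (1 : ℝ) / n) p ≤
      ∑' p, E.indicator (fun n : ℕ => (1 : ℝ) / n) p :=
    Summable.sum_le_tsum F (fun p _ => hE0 p) hE
  have a4 : ∑ p ∈ F, (if 1 - δ ≤ |FF u p| ∧ ε < |M.E (d p) - M.E (fs p)| then
      (1 : ℝ) / p else 0) ≤ C0 := by
    rw [← sum_filter]
    refine hC0 M hM _ fun p hp => ?_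
    rw [mem_filter] at hp
    exact ⟨hF p hp.1, hp.2.1, hp.2.2⟩
  linarith

end Pool.Agent.H56.SS
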