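import Pool.Agent.H28.SS.FIN
import Pool.Agent.H56.SS.MUL1
import Pool.Agent.H96.RP.PRD

/-!
# Row COR: the correlations of `u` and of its predictable part
-/

set_option autoImplicit false
set_option maxHeartbeats 400000

open MeasureTheory ProbabilityTheory Filter Topology Finset

namespace Pool.Agent.H56.SS

open Pool.Agent.H89.MT (I1 X pt z1 o1 m1 IsMult lavg)
open Pool.Agent.H36.RP (S past remote remote_le past_le past_mono remote_le_past mulI dil Local)
open Pool.Agent.H28.DS (P meas_P P_bdd int_bdd pair sq_expand sq_P abs_y meas_y)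
open Pool.Agent.H21.WN (PredRem)
open Pool.Agent.H96.RP (tau tau_meas tau_cont tau_mp int_tau)

/-- the clipped conditional mean -/
noncomputable def Pc (κ : Measure X) (k : ℤ) (x : X) : ℝ := max (-1) (min 1 (P κ k x))

variable {κ : Measure X} [IsProbabilityMeasure κ]

omit [IsProbabilityMeasure κ] in
lemma Pc_abs (k : ℤ) (x : X) : |Pc κ k x| ≤ 1 :=
  abs_le.2 ⟨le_max_left _ _, max_le (by norm_num) (min_le_left _ _)⟩

lemma Pc_eq (k : ℤ) : ∀ᵐ x ∂κ, Pc κ k x = P κ k x := by
  filter_upwards [P_bdd (κ := κ) k] with x hx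
  have h := abs_le.1 hx
  show max (-1) (min 1 (P κ k x)) = P κ k x
  rw [min_eq_right h.2, max_eq_right h.1]

omit [IsProbabilityMeasure κ] in
lemma Pc_meas (k : ℤ) : Measurable[remote] (Pc κ k) := by
  have hm : Measurable[remote] (P κ k) := stronglyMeasurable_condExp.measurable
  exact measurable_const.max (measurable_const.min hm)

lemma prod_abs {A : Finset ℤ} {f : ℤ → ℝ} (hf : ∀ h, |f h| ≤ 1) : |∏ h ∈ A, f h| ≤ 1 := by
  rw [Finset.abs_prod]
  exact Finset.prod_le_one (fun _ _ => abs_nonneg _) fun h _ => hf h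

lemma prod_sub (A : Finset ℤ) {f g : ℤ → ℝ} (hf : ∀ h, |f h| ≤ 1) (hg : ∀ h, |g h| ≤ 1) :
    |∏ h ∈ A, f h - ∏ h ∈ A, g h| ≤ ∑ h ∈ A, |f h - g h| := by
  classical
  induction A using Finset.induction_on with
  | empty => simp
  | insert a s ha ih =>
    rw [Finset.prod_insert ha, Finset.prod_insert ha, Finset.sum_insert ha]
    have e : f a * ∏ h ∈ s, f h - g a * ∏ h ∈ s, g h =
        (f a - g a) * ∏ h ∈ s, f h + g a * (∏ h ∈ s, f h - ∏ h ∈ s, g h) := by ring
    rw [e]
    refine (abs_add_le _ _).trans (add_le_add ?_ ?_)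
    · rw [abs_mul]
      exact mul_le_of_le_one_right (abs_nonneg _) (prod_abs hf)
    · rw [abs_mul]
      exact (mul_le_of_le_one_left (abs_nonneg _) (hg a)).trans ih

/-- peeling off the largest shift -/
theorem peel (hpred : PredRem κ) (A : Finset ℤ) : ∀ (R : X → ℝ) (D : ℝ), Measurable[remote] R →
    (∀ x, |R x| ≤ D) →
    ∫ x, R x * ∏ h ∈ A, (x h : ℝ) ∂κ = ∫ x, R x * ∏ h ∈ A, Pc κ h x ∂κ := by
  classical
  induction A using Finset.induction_on_max with
  | empty =>
    intro R D _ _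
    simp
  | insert a s hs ih =>
    intro R D hR hD
    have ha : a ∉ s := fun h => lt_irrefl _ (hs a h)
    have hD0 : 0 ≤ D := (abs_nonneg _).trans (hD fun _ => z1)
    have hm : Measurable[past (a - 1)] fun x : X => R x * ∏ h ∈ s, (x h : ℝ) := by
      refine (hR.mono (remote_le_past _) le_rfl).mul ?_
      refine Finset.measurable_fun_prod s fun h hh => ?_
      have h1 : h ≤ a - 1 := by
        have := hs h hh
        omega
      have h2 : Measurable[past (a - 1)] fun x : X => x h := by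
        rw [measurable_iff_comap_le]
        exact le_iSup_of_le h (le_iSup_of_le h1 le_rfl)
      exact measurable_subtype_coe.comp h2
    have hb : ∀ x : X, |R x * ∏ h ∈ s, (x h : ℝ)| ≤ D := by
      intro x
      rw [abs_mul]
      calc |R x| * |∏ h ∈ s, (x h : ℝ)| ≤ D * 1 :=
            mul_le_mul (hD x) (prod_abs fun h => abs_y x h) (abs_nonneg _) hD0
        _ = D := mul_one D
    have h1 := pair hpred a hm hb
    have e1 : ∫ x, R x * ∏ h ∈ insert a s, (x h : ℝ) ∂κ =
        ∫ x, (x a : ℝ) * (R x * ∏ h ∈ s, (x h : ℝ)) ∂κ := by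
      refine integral_congr_ae (Eventually.of_forall fun x => ?_)
      show R x * ∏ h ∈ insert a s, (x h : ℝ) = (x a : ℝ) * (R x * ∏ h ∈ s, (x h : ℝ))
      rw [Finset.prod_insert ha]
      ring
    have e2 : ∫ x, P κ a x * (R x * ∏ h ∈ s, (x h : ℝ)) ∂κ =
        ∫ x, (R x * Pc κ a x) * ∏ h ∈ s, (x h : ℝ) ∂κ := by
      refine integral_congr_ae ?_
      filter_upwards [Pc_eq (κ := κ) a] with x hx
      rw [hx]
      ring
    have h2 := ih (fun x => R x * Pc κ a x) (D * 1) (hR.mul (Pc_meas a)) fun x => by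
      rw [abs_mul]
      exact mul_le_mul (hD x) (Pc_abs a x) (abs_nonneg _) hD0
    rw [e1, ← h1, e2, h2]
    refine integral_congr_ae (Eventually.of_forall fun x => ?_)
    show R x * Pc κ a x * ∏ h ∈ s, Pc κ h x = R x * ∏ h ∈ insert a s, Pc κ h x
    rw [Finset.prod_insert ha]
    ring

theorem peel1 (hpred : PredRem κ) (A : Finset ℤ) :
    ∫ x, ∏ h ∈ A, (x h : ℝ) ∂κ = ∫ x, ∏ h ∈ A, Pc κ h x ∂κ := by
  have h1 := peel hpred A (fun _ => 1) 1 measurable_const fun x => by simp
  simp only [one_mul] at h1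
  exact h1

/-- the distance of the conditional mean of `x a` from the shift of `b` -/
theorem shift_dist (hS : MeasurePreserving S κ κ) (hpred : PredRem κ) (m H : ℕ) (hm : 0 < m)
    {φ : (Fin H → I1) → ℝ} (hφ : Continuous φ) (hb : ∀ y, |φ y| ≤ 1) (a : ℤ) :
    ∫ x, (P κ a x - loc m H φ (tau a x)) ^ 2 ∂κ = ∫ x, (P0 κ x - loc m H φ x) ^ 2 ∂κ := by
  have hbc : Continuous (loc m H φ) := loc_cont m H hφ
  have hmeas : ∀ a : ℤ, Measurable[past (a - 1)] fun x : X => loc m H φ (tau a x) := by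
    intro a
    refine hφ.measurable.comp ?_
    refine @measurable_pi_lambda X (Fin H) (fun _ => I1) (past (a - 1)) _ _ fun j => ?_
    have h1 : -((m : ℤ) + ((j : ℕ) : ℤ)) + a ≤ a - 1 := by
      have : (1 : ℤ) ≤ m := by exact_mod_cast hm
      have : (0 : ℤ) ≤ ((j : ℕ) : ℤ) := Int.natCast_nonneg _
      linarith
    have h2 : Measurable[past (a - 1)] fun x : X => x (-((m : ℤ) + ((j : ℕ) : ℤ)) + a) := by
      rw [measurable_iff_comap_le]
      exact le_iSup_of_le _ (le_iSup_of_le h1 le_rfl)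
    exact h2
  have e1 := sq_expand hS hpred a (hmeas a) (D := 1) fun x => hb _
  have h0 : (fun x : X => loc m H φ (tau 0 x)) = loc m H φ := by
    funext x
    have : tau 0 x = x := by
      funext k
      simp [tau]
    rw [this]
  have hm0 := hmeas 0
  rw [h0] at hm0
  have e2 := sq_expand hS hpred 0 hm0 (D := 1) fun x => hb _
  have e3 : ∫ x, (x a : ℝ) * loc m H φ (tau a x) ∂κ = ∫ x, (x 0 : ℝ) * loc m H φ x ∂κ := by
    have h3 := int_tau hS a (G := fun x : X => (x 0 : ℝ) * loc m H φ x)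
      ((meas_y 0).mul hbc.measurable)
    rw [← h3]
    refine integral_congr_ae (Eventually.of_forall fun x => ?_)
    show (x a : ℝ) * loc m H φ (tau a x) = ((tau a x 0 : I1) : ℝ) * loc m H φ (tau a x)
    have h4 : tau a x 0 = x a := by simp [tau]
    rw [h4]
  have e4 : ∫ x, loc m H φ (tau a x) ^ 2 ∂κ = ∫ x, loc m H φ x ^ 2 ∂κ :=
    int_tau hS a (G := fun x : X => loc m H φ x ^ 2) (hbc.measurable.pow_const 2)
  rw [e1, e3, e4]
  exact e2.symm

/-- [COR] the correlations -/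
theorem cor (hS : MeasurePreserving S κ κ) (hpred : PredRem κ) (m H : ℕ) (hm : 0 < m)
    {φ : (Fin H → I1) → ℝ} (hφ : Continuous φ) (hb : ∀ y, |φ y| ≤ 1) {ε : ℝ} (hε : 0 < ε)
    (hd : ∫ x, (P0 κ x - loc m H φ x) ^ 2 ∂κ ≤ ε ^ 2 / 16) (A : Finset ℤ) :
    |∫ x, ∏ h ∈ A, (x h : ℝ) ∂κ - ∫ x, ∏ h ∈ A, loc m H φ (tau h x) ∂κ| ≤
      A.card * (ε / 4) := by
  have hbc : Continuous (loc m H φ) := loc_cont m H hφ
  have hPc : ∀ k, Measurable (Pc κ k) := fun k => (Pc_meas (κ := κ) k).mono remote_le le_rfl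
  have m1 : Measurable fun x => ∏ h ∈ A, Pc κ h x := Finset.measurable_fun_prod A fun h _ => hPc h
  have m2 : Measurable fun x => ∏ h ∈ A, loc m H φ (tau h x) :=
    Finset.measurable_fun_prod A fun h _ => hbc.measurable.comp (tau_meas h)
  have i1 : Integrable (fun x => ∏ h ∈ A, Pc κ h x) κ :=
    int_bdd m1 (C := 1) (Eventually.of_forall fun x => prod_abs fun h => Pc_abs h x)
  have i2 : Integrable (fun x => ∏ h ∈ A, loc m H φ (tau h x)) κ :=
    int_bdd m2 (C := 1) (Eventually.of_forall fun x => prod_abs fun h => hb _)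
  have hdm : ∀ h : ℤ, Measurable fun x => P κ h x - loc m H φ (tau h x) := fun h =>
    (meas_P h).sub (hbc.measurable.comp (tau_meas h))
  have hdb : ∀ h : ℤ, ∀ᵐ x ∂κ, |P κ h x - loc m H φ (tau h x)| ≤ 2 := by
    intro h
    filter_upwards [P_bdd (κ := κ) h] with x hx
    refine (abs_sub _ _).trans ?_
    have h1 : |loc m H φ (tau h x)| ≤ 1 := hb _
    linarith
  have i3 : ∀ h ∈ A, Integrable (fun x => |P κ h x - loc m H φ (tau h x)|) κ := fun h _ =>
    (int_bdd (hdm h) (hdb h)).abs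
  rw [peel1 hpred A, ← integral_sub i1 i2]
  refine abs_integral_le_integral_abs.trans ?_
  have h1 : ∫ x, |∏ h ∈ A, Pc κ h x - ∏ h ∈ A, loc m H φ (tau h x)| ∂κ ≤
      ∫ x, ∑ h ∈ A, |P κ h x - loc m H φ (tau h x)| ∂κ := by
    refine integral_mono_ae (i1.sub i2).abs (integrable_finsetSum _ i3) ?_
    have h2 : ∀ᵐ x ∂κ, ∀ h ∈ A, Pc κ h x = P κ h x :=
      (Filter.eventually_all_finset A).2 fun h _ => Pc_eq (κ := κ) h
    filter_upwards [h2] with x hx
    refine (prod_sub A (fun h => Pc_abs h x) (g := fun h => loc m H φ (tau h x))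
      fun h => hb _).trans (le_of_eq ?_)
    exact Finset.sum_congr rfl fun h hh => by rw [hx h hh]
  refine h1.trans ?_
  rw [integral_finsetSum _ i3]
  have h3 : ∀ h ∈ A, ∫ x, |P κ h x - loc m H φ (tau h x)| ∂κ ≤ ε / 4 := fun h _ =>
    Pool.Agent.H28.SS.abs_int_le (hdm h) (hdb h) hε
      ((shift_dist hS hpred m H hm hφ hb h).le.trans hd)
  refine (Finset.sum_le_sum h3).trans (le_of_eq ?_)
  rw [Finset.sum_const, nsmul_eq_mul]

end Pool.Agent.H56.SS
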