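import Pool.Agent.H56.SS.MUL1
import Pool.Agent.H13.RR.RODE

/-!
# Row MUL: from the means to the logarithmic averages
-/

set_option autoImplicit false
set_option maxHeartbeats 400000

open MeasureTheory ProbabilityTheory Filter Topology Finset

namespace Pool.Agent.H56.SS

open Pool.Agent.H89.MT (I1 X pt z1 o1 m1 IsMult lavg)
open Pool.Agent.H91.LF (Mean Dil Bdd)
open Pool.Agent.H36.RP (S past remote remote_le mulI dil Local)
open Pool.Agent.H12.RP (FF pt_val cl cl_eq FF_nat FF_mul dil_cont id_pt)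

/-- a mean along a subsequence -/
theorem mean_of (u : ℕ → I1) (κ : Measure X) (N : ℕ → ℕ) (hN : Tendsto N atTop atTop)
    (hκ : ∀ F : C(X, ℝ), Tendsto (fun k => lavg (N k) fun n => F (pt u n)) atTop
      (𝓝 (∫ x, F x ∂κ))) :
    ∃ M : Mean 1, Dil M ∧ Gives M u κ ∧ ∀ (f : ℤ → ℝ) (C L : ℝ), (∀ n, |f n| ≤ C) →
      Tendsto (fun k => lavg (N k) (fun n : ℕ => f (n : ℤ))) atTop (𝓝 L) →
        M.E (fun ω => f (ω 0)) = L := by
  have hlog : Tendsto (fun k => Real.log (((max 1 (N k) : ℕ) : ℝ) / ((1 : ℕ) : ℝ))) atTop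
      atTop := by
    have h2 : Tendsto (fun k => Real.log ((N k : ℕ) : ℝ)) atTop atTop :=
      Real.tendsto_log_atTop.comp (tendsto_natCast_atTop_atTop.comp hN)
    refine h2.congr' ?_
    filter_upwards [hN.eventually_ge_atTop 1] with k hk
    have h3 : max 1 (N k) = N k := max_eq_right hk
    rw [h3]
    simp
  obtain ⟨M, hM, hE⟩ := Pool.Agent.H14.RP.pf_MW (fun _ => 1) (fun k => max 1 (N k))
    (fun k => ⟨le_rfl, le_max_left _ _⟩) hlog
  have hE' : ∀ (f : ℤ → ℝ) (C L : ℝ), (∀ n, |f n| ≤ C) →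
      Tendsto (fun k => lavg (N k) (fun n : ℕ => f (n : ℤ))) atTop (𝓝 L) →
        M.E (fun ω => f (ω 0)) = L := by
    intro f C L hf hL
    refine hE f C L hf (hL.congr' ?_)
    filter_upwards [hN.eventually_ge_atTop 1] with k hk
    have h3 : max 1 (N k) = N k := max_eq_right hk
    rw [h3]
    unfold lavg
    simp
  refine ⟨M, hM, fun G => ?_, hE'⟩
  obtain ⟨B, hB⟩ : ∃ B : ℝ, ∀ x, |G x| ≤ B := by
    obtain ⟨B, hB⟩ := (isCompact_range G.continuous).isBounded.exists_norm_le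
    exact ⟨B, fun x => hB (G x) ⟨x, rfl⟩⟩
  refine hE' (fun n => G (cl (fun k => FF u (n + k)))) B _ (fun n => hB _) ?_
  refine (hκ G).congr fun k => ?_
  congr 1
  funext n
  rw [id_pt]

theorem pf_MUL : T_MUL := by
  classical
  intro u hu hsum κ _ N hN hκ m H φ hφ hφ1 ε E hε hE hEp
  obtain ⟨C1, hC1⟩ := claimA u hu hsum κ m H φ hφ hφ1 ε E hε hE hEp
  refine ⟨C1 + 1, fun F hF => ?_⟩
  by_contra hcon
  set f : ℤ → ℝ := fun n => ∑ p ∈ F, (1 / (p : ℝ)) *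
    (loc m H φ (cl fun k => FF u (p * n + k)) -
      (u p : ℝ) * loc m H φ (cl fun k => FF u (n + k))) ^ 2 with hf
  set B : ℝ := ∑ p ∈ F, (1 / (p : ℝ)) * 4 with hB
  have hfB : ∀ n, |f n| ≤ B := by
    intro n
    refine (Finset.abs_sum_le_sum_abs _ _).trans (Finset.sum_le_sum fun p _ => ?_)
    rw [abs_mul, abs_of_nonneg (by positivity : (0 : ℝ) ≤ 1 / (p : ℝ)), abs_pow]
    refine mul_le_mul_of_nonneg_left ?_ (by positivity)
    have h1 : |loc m H φ (cl fun k => FF u (p * n + k)) -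
        (u p : ℝ) * loc m H φ (cl fun k => FF u (n + k))| ≤ 2 := by
      refine (abs_sub _ _).trans ?_
      rw [abs_mul]
      have h2 := hφ1 (fun j => cl (fun k => FF u (p * n + k)) (-((m : ℤ) + (j : ℕ))))
      have h3 : |(u p : ℝ)| * |loc m H φ (cl fun k => FF u (n + k))| ≤ 1 :=
        mul_le_one₀ (abs_le.2 (u p).2) (abs_nonneg _) (hφ1 _)
      have h4 : |loc m H φ (cl fun k => FF u (p * n + k))| ≤ 1 := h2
      linarith
    nlinarith [abs_nonneg (loc m H φ (cl fun k => FF u (p * n + k)) -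
        (u p : ℝ) * loc m H φ (cl fun k => FF u (n + k)))]
  have hs : ∀ K : ℕ, lavg K (fun n : ℕ => f (n : ℤ)) = ∑ p ∈ F, (1 / (p : ℝ)) *
      lavg K (fun n => (loc m H φ (pt u (p * n)) - (u p : ℝ) * loc m H φ (pt u n)) ^ 2) := by
    intro K
    have h1 := Pool.Agent.H13.RR.lavg_sum F (fun (p : ℕ) (n : ℕ) => (1 / (p : ℝ)) *
      (loc m H φ (pt u (p * n)) - (u p : ℝ) * loc m H φ (pt u n)) ^ 2) K
    have h2 : (fun n : ℕ => f (n : ℤ)) = fun n : ℕ => ∑ p ∈ F, (1 / (p : ℝ)) *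
        (loc m H φ (pt u (p * n)) - (u p : ℝ) * loc m H φ (pt u n)) ^ 2 := by
      funext n
      rw [hf]
      refine Finset.sum_congr rfl fun p _ => ?_
      have h3 := id_pt u (p * n)
      have h4 := id_pt u n
      rw [Nat.cast_mul] at h3
      rw [← h3, ← h4]
    rw [h2, h1]
    exact Finset.sum_congr rfl fun p _ => Pool.Agent.H13.RR.lavg_mul _ _ _
  have hfr : ∃ᶠ k in atTop, C1 + 1 + 3 * ε * ∑ p ∈ F, 1 / (p : ℝ) <
      lavg (N k) (fun n : ℕ => f (n : ℤ)) := by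
    rw [Filter.not_eventually] at hcon
    refine hcon.mono fun k hk => ?_
    rw [hs]
    exact not_le.1 hk
  obtain ⟨ψ₁, hψ₁, h1⟩ := Filter.extraction_of_frequently_atTop hfr
  -- boundedness
  have hone : ∀ᶠ k in atTop, lavg (N k) (fun _ => (1 : ℝ)) < 2 := by
    have h2 := hκ (ContinuousMap.const X (1 : ℝ))
    have h3 : ∫ x, (ContinuousMap.const X (1 : ℝ)) x ∂κ = 1 := by simp
    rw [h3] at h2
    exact h2.eventually_lt_const (by norm_num : (1 : ℝ) < 2)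
  have hB0 : 0 ≤ B := (abs_nonneg _).trans (hfB 0)
  have hbd : ∀ᶠ k in atTop, lavg (N (ψ₁ k)) (fun n : ℕ => f (n : ℤ)) ∈
      Set.Icc (-(2 * B)) (2 * B) := by
    filter_upwards [hψ₁.tendsto_atTop.eventually hone] with k hk
    have h2 : |lavg (N (ψ₁ k)) (fun n : ℕ => f (n : ℤ)) - lavg (N (ψ₁ k)) (fun _ => (0 : ℝ))| ≤
        lavg (N (ψ₁ k)) (fun n : ℕ => |f (n : ℤ) - 0|) := Pool.Agent.H13.RR.abs_lavg_sub _ _ _
    have h3 : lavg (N (ψ₁ k)) (fun _ => (0 : ℝ)) = 0 := by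
      unfold lavg
      simp
    have h4 : lavg (N (ψ₁ k)) (fun n : ℕ => |f (n : ℤ) - 0|) ≤
        lavg (N (ψ₁ k)) (fun _ => B * 1) := by
      refine Pool.Agent.H13.RR.lavg_mono (fun n _ => ?_) _
      rw [sub_zero, mul_one]
      exact hfB _
    rw [Pool.Agent.H13.RR.lavg_mul] at h4
    rw [h3, sub_zero] at h2
    have h5 : B * lavg (N (ψ₁ k)) (fun _ => (1 : ℝ)) ≤ B * 2 :=
      mul_le_mul_of_nonneg_left hk.le hB0
    have h6 := abs_le.1 (h2.trans (h4.trans h5))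
    constructor
    · linarith [h6.1]
    · linarith [h6.2]
  obtain ⟨L, -, ψ₂, hψ₂, h2⟩ := tendsto_subseq_of_frequently_bounded
    (Metric.isBounded_Icc (-(2 * B)) (2 * B)) hbd.frequently
  have hL : C1 + 1 + 3 * ε * ∑ p ∈ F, 1 / (p : ℝ) ≤ L :=
    ge_of_tendsto' h2 fun k => (h1 (ψ₂ k)).le
  have hψ : Tendsto (fun k => ψ₁ (ψ₂ k)) atTop atTop :=
    hψ₁.tendsto_atTop.comp hψ₂.tendsto_atTop
  obtain ⟨M, hM, hgive, hE'⟩ := mean_of u κ (fun k => N (ψ₁ (ψ₂ k))) (hN.comp hψ)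
    (fun G => (hκ G).comp hψ)
  have h3 := hE' f B L hfB h2
  have h4 := hC1 M hM hgive F hF
  have h5 : M.E (fun ω => f (ω 0)) ≤ C1 + 3 * ε * ∑ p ∈ F, 1 / (p : ℝ) := h4
  rw [h3] at h5
  linarith

end Pool.Agent.H56.SS
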