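import Pool.Agent.H56.SS.RAX1

/-!
# Row RAX: the entropy decrement for pairs of words
-/

set_option autoImplicit false
set_option maxHeartbeats 400000

open Finset Filter Topology

namespace Pool.Agent.H56.SS

open Pool.Agent.H91.LF (Mean Dil Bdd bdd_const bdd_add bdd_mul bdd_smul bdd_sub bdd_sum bdd_comp)
open Pool.Agent.H47.RP Pool.Agent.H36.RP
open Pool.Agent.H12.RPR (dil1 dens sub_E_le sg_abs sg_mul uc_eq disc)

open Classical in
/-- the decoupling, for the function of the words -/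
lemma ru_gq (N H : ℕ) (r : Fin (2 * N + 1) → ℝ) (hr : ∀ a, |r a| ≤ 1)
    (x : ℤ → Fin (2 * N + 1)) (Φ : (ℤ → ℝ) → ℝ) (hΦ : ∀ z, |Φ z| ≤ 1) (hUC : UC H Φ)
    (s : ℕ → ℝ) (hs : ∀ p, |s p| = 1) : ∃ K : ℝ, ∀ M : Mean 1, ∀ S : Finset ℕ,
      (∀ p ∈ S, p.Prime) →
      ∑ p ∈ S, (1 / (p : ℝ)) * (M.E (fun ω => (p : ℝ) * if (p : ℤ) ∣ ω 0 then
          gq H r Φ (s p) (fun k => yy H x (ω 0 + p * k)) else 0) -
        M.E (fun ω => gq H r Φ (s p) (fun k => yy H x (ω 0 + p * k)))) ^ 2 ≤ K := by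
  refine ⟨_, fun M S hS => pf_RU M (Al N H) inferInstance (yy H x) H (fun p => gq H r Φ (s p))
    (fun p z => QQ_abs (hs p) (hΦ _) (hΦ _)) (fun p z z' hz => ?_) S hS⟩
  have e1 : rr H r (z 0) = rr H r (z' 0) := by
    rw [hz 0 (by rw [abs_zero]; exact Int.natCast_nonneg _)]
  have e2 : Φ (fun k => s p * rr H r (z k) 0) = Φ (fun k => s p * rr H r (z' k) 0) := by
    refine uc_eq hUC fun k hk => ⟨?_, ?_⟩
    · rw [abs_mul, hs, one_mul]
      exact rr_abs H hr _ _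
    · rw [hz k hk]
  show QQ (s p) (Φ (rr H r (z 0))) (Φ (fun k => s p * rr H r (z k) 0)) =
    QQ (s p) (Φ (rr H r (z' 0))) (Φ (fun k => s p * rr H r (z' k) 0))
  rw [e1, e2]

/-- the comparison, for one prime -/
lemma one_p (F : ℤ → ℝ) (hF : ∀ n, |F n| ≤ 1)
    (hmul : ∀ (p : ℕ) (m : ℤ), p.Prime → ¬ (p : ℤ) ∣ m → F (p * m) = F p * F m)
    (H : ℕ) (Φ : (ℤ → ℝ) → ℝ) (hΦ : ∀ z, |Φ z| ≤ 1) (t δ : ℝ) (ht : 0 ≤ t)
    (hU : ∀ z z' : ℤ → ℝ, (∀ k : ℤ, |k| ≤ H → |z k| ≤ 1 ∧ |z' k| ≤ 1 ∧ |z k - z' k| ≤ δ) →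
      |Φ z - Φ z'| ≤ t) (N : ℕ) (r : Fin (2 * N + 1) → ℝ) (x : ℤ → Fin (2 * N + 1))
    (hr : ∀ a, |r a| ≤ 1) (hx : ∀ n, |r (x n) - F n| ≤ δ) (M : Mean 1) (hM : Dil M)
    (p : ℕ) (hpp : p.Prime) (hpδ : 1 - δ ≤ |F p|) :
    |M.E (fun ω => (Φ (fun k => F (ω 0 + k)) -
          sg (F p) * Φ (fun k => sg (F p) * F (ω 0 + p * k))) ^ 2) -
        M.E (fun ω => (Φ (fun k => F (p * ω 0 + k)) -
          sg (F p) * Φ (fun k => F (ω 0 + k))) ^ 2)| ≤
      4 * (5 * t + (2 * H + 1) * (1 / p) +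
      |M.E (fun ω => (p : ℝ) * if (p : ℤ) ∣ ω 0 then
          gq H r Φ (sg (F p)) (fun k => yy H x (ω 0 + p * k)) else 0) -
        M.E (fun ω => gq H r Φ (sg (F p)) (fun k => yy H x (ω 0 + p * k)))|) := by
  have hsF : ∀ n : ℤ, |sg (F p) * F n| ≤ 1 := by
    intro n
    rw [abs_mul, sg_abs, one_mul]
    exact hF n
  have hsr : ∀ a : Al N H, |sg (F p) * rr H r a 0| ≤ 1 := by
    intro a
    rw [abs_mul, sg_abs, one_mul]
    exact rr_abs H hr _ _
  have cmp1 : ∀ n : ℤ, |Φ (rr H r (yy H x n)) - Φ (fun k => F (n + k))| ≤ t := by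
    intro n
    refine hU _ _ fun k hk => ⟨rr_abs H hr _ _, hF _, ?_⟩
    rw [rr_yy H r x n k hk]
    exact hx _
  have cmp2 : ∀ n : ℤ, |Φ (fun k => sg (F p) * rr H r (yy H x (n + p * k)) 0) -
      Φ (fun k => sg (F p) * F (n + p * k))| ≤ t := by
    intro n
    refine hU _ _ fun k _ => ⟨hsr _, hsF _, ?_⟩
    rw [rr_yy0, ← mul_sub, abs_mul, sg_abs, one_mul]
    exact hx _
  set qa : ℤ → ℝ := fun n => QQ (sg (F p)) (Φ (fun k => F (n + k)))
    (Φ (fun k => sg (F p) * F (n + p * k))) with hqa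
  set qe : ℤ → ℝ := fun n => QQ (sg (F p)) (Φ (fun k => F (p * n + k)))
    (Φ (fun k => F (n + k))) with hqe
  set gg : ℤ → ℝ := fun n => gq H r Φ (sg (F p)) (fun k => yy H x (n + p * k)) with hgg
  have hg : ∀ n, gg n = QQ (sg (F p)) (Φ (rr H r (yy H x n)))
      (Φ (fun k => sg (F p) * rr H r (yy H x (n + p * k)) 0)) := by
    intro n
    rw [hgg]
    unfold gq
    dsimp only
    rw [mul_zero, add_zero]
  have hqab : ∀ n, |qa n| ≤ 1 := fun n => QQ_abs (sg_abs _) (hΦ _) (hΦ _)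
  have hqeb : ∀ n, |qe n| ≤ 1 := fun n => QQ_abs (sg_abs _) (hΦ _) (hΦ _)
  have ea : M.E (fun ω => (Φ (fun k => F (ω 0 + k)) -
        sg (F p) * Φ (fun k => sg (F p) * F (ω 0 + p * k))) ^ 2) =
      4 * M.E (fun ω => qa (ω 0)) := by
    rw [← M.smul 4 _ ⟨1, fun ω => hqab _⟩]
    congr 1
    funext ω
    rw [hqa]
    unfold QQ
    ring
  have ee : M.E (fun ω => (Φ (fun k => F (p * ω 0 + k)) -
        sg (F p) * Φ (fun k => F (ω 0 + k))) ^ 2) = 4 * M.E (fun ω => qe (ω 0)) := by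
    rw [← M.smul 4 _ ⟨1, fun ω => hqeb _⟩]
    congr 1
    funext ω
    rw [hqe]
    unfold QQ
    ring
  rw [ea, ee, ← mul_sub, abs_mul, abs_of_pos (by norm_num : (0 : ℝ) < 4)]
  refine mul_le_mul_of_nonneg_left ?_ (by norm_num)
  refine core M hM p hpp H t ht gg qa qe (fun n => ?_) hqab (fun n => ?_) (fun n => ?_)
    (fun m hd => ?_)
  · rw [hg]
    exact ⟨QQ_nonneg _ _ _, QQ_le (sg_abs _) (hΦ _) (hΦ _)⟩
  · exact ⟨QQ_nonneg _ _ _, QQ_le (sg_abs _) (hΦ _) (hΦ _)⟩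
  · rw [hg]
    have h2 := QQ_lip (sg_abs (F p)) (hΦ (fun k => F (n + k)))
      (hΦ (fun k => sg (F p) * F (n + p * k))) (hΦ (rr H r (yy H x n)))
      (hΦ (fun k => sg (F p) * rr H r (yy H x (n + p * k)) 0))
    have h3 := cmp1 n
    have h4 := cmp2 n
    rw [abs_sub_comm] at h3 h4
    exact h2.trans (by linarith)
  · rw [hg]
    have h1 := cmp1 ((p : ℤ) * m)
    have h1' := cmp2 ((p : ℤ) * m)
    have h2 : |Φ (fun k => sg (F p) * F ((p : ℤ) * m + p * k)) -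
        Φ (fun k => F (m + k))| ≤ t := by
      refine hU _ _ fun k hk => ⟨hsF _, hF _, ?_⟩
      have h3 := hd k (by
        rw [mem_Icc]
        exact abs_le.1 hk)
      have h4 : (p : ℤ) * m + p * k = p * (m + k) := by ring
      rw [h4, hmul p (m + k) hpp h3, ← mul_assoc, sg_mul]
      have h5 : |F p| * F (m + k) - F (m + k) = -((1 - |F p|) * F (m + k)) := by ring
      have h6 : 0 ≤ 1 - |F p| := sub_nonneg.2 (hF p)
      rw [h5, abs_neg, abs_mul, abs_of_nonneg h6]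
      calc (1 - |F p|) * |F (m + k)| ≤ (1 - |F p|) * 1 :=
            mul_le_mul_of_nonneg_left (hF _) h6
        _ ≤ δ := by linarith
    have h9 := QQ_lip (sg_abs (F p)) (hΦ (rr H r (yy H x ((p : ℤ) * m))))
      (hΦ (fun k => sg (F p) * rr H r (yy H x ((p : ℤ) * m + p * k)) 0))
      (hΦ (fun k => F (p * m + k))) (hΦ (fun k => F (m + k)))
    have h10 := abs_sub_le (Φ (fun k => sg (F p) * rr H r (yy H x ((p : ℤ) * m + p * k)) 0))
      (Φ (fun k => sg (F p) * F ((p : ℤ) * m + p * k))) (Φ (fun k => F (m + k)))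
    refine h9.trans ?_
    linarith

theorem pf_RAX : T_RAX := by
  classical
  intro F hF hmul H Φ hΦ hUC ε hε
  obtain ⟨δ, hδ, hU⟩ := hUC (ε / 64) (by positivity)
  obtain ⟨N, hN⟩ := exists_nat_gt (1 / δ)
  have hN1 : (0 : ℝ) < N := lt_trans (by positivity) hN
  have hN0 : 0 < N := by exact_mod_cast hN1
  have hNd : 1 / (N : ℝ) ≤ δ := by
    rw [div_lt_iff₀ hδ] at hN
    rw [div_le_iff₀ hN1]
    linarith
  obtain ⟨r, x, hr, hx⟩ := disc F hF N hN0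
  obtain ⟨K, hK⟩ := ru_gq N H r hr x Φ hΦ hUC (fun p => sg (F p)) (fun p => sg_abs _)
  obtain ⟨P, hP⟩ := exists_nat_ge (64 * (2 * (H : ℝ) + 1) / ε)
  refine ⟨δ, 64 * K / ε ^ 2 + P, hδ, ?_⟩
  intro M hM S hS
  have key : ∀ p ∈ S.filter (fun p => P ≤ p), (1 / (p : ℝ)) * (ε / 8) ^ 2 ≤
      (1 / (p : ℝ)) * (M.E (fun ω => (p : ℝ) * if (p : ℤ) ∣ ω 0 then
          gq H r Φ (sg (F p)) (fun k => yy H x (ω 0 + p * k)) else 0) -
        M.E (fun ω => gq H r Φ (sg (F p)) (fun k => yy H x (ω 0 + p * k)))) ^ 2 := by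
    intro p hp
    rw [mem_filter] at hp
    obtain ⟨hpS, hpP⟩ := hp
    obtain ⟨hpp, hpδ, hpε⟩ := hS p hpS
    have hp0 : (0 : ℝ) < p := by exact_mod_cast hpp.pos
    refine mul_le_mul_of_nonneg_left ?_ (by positivity)
    have h0 := one_p F hF hmul H Φ hΦ (ε / 64) δ (by positivity) hU N r x hr
      (fun n => (hx n).trans hNd) M hM p hpp hpδ
    have s3 : ((2 * (H : ℝ) + 1) * (1 / p)) ≤ ε / 64 := by
      have h0 : (P : ℝ) ≤ p := by exact_mod_cast hpP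
      have h1 : 64 * (2 * (H : ℝ) + 1) / ε ≤ p := hP.trans h0
      rw [div_le_iff₀ hε] at h1
      rw [mul_one_div, div_le_iff₀ hp0]
      linarith
    have h1 := lt_of_lt_of_le hpε h0
    generalize M.E (fun ω => (p : ℝ) * if (p : ℤ) ∣ ω 0 then
          gq H r Φ (sg (F p)) (fun k => yy H x (ω 0 + p * k)) else 0) = c at h1 ⊢
    generalize M.E (fun ω => gq H r Φ (sg (F p)) (fun k => yy H x (ω 0 + p * k))) = b at h1 ⊢
    have h4 : ε / 8 ≤ |c - b| := by linarith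
    rw [← sq_abs (c - b)]
    exact pow_le_pow_left₀ (by positivity) h4 2
  have h1 := hK M (S.filter (fun p => P ≤ p)) (fun p hp => (hS p (mem_filter.1 hp).1).1)
  have h2 : (∑ p ∈ S.filter (fun p => P ≤ p), 1 / (p : ℝ)) * (ε / 8) ^ 2 ≤ K := by
    rw [sum_mul]
    exact (sum_le_sum key).trans h1
  have h3 : ∑ p ∈ S.filter (fun p => P ≤ p), 1 / (p : ℝ) ≤ 64 * K / ε ^ 2 := by
    rw [le_div_iff₀ (by positivity)]
    nlinarith
  have h4 : ∑ p ∈ S.filter (fun p => ¬ P ≤ p), 1 / (p : ℝ) ≤ P := by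
    calc ∑ p ∈ S.filter (fun p => ¬ P ≤ p), 1 / (p : ℝ)
        ≤ ∑ _p ∈ S.filter (fun p => ¬ P ≤ p), (1 : ℝ) := by
          refine sum_le_sum fun p hp => ?_
          have h5 : (1 : ℝ) ≤ p := by
            exact_mod_cast (hS p (mem_filter.1 hp).1).1.one_lt.le
          exact (div_le_one (by linarith)).2 h5
      _ = ((S.filter (fun p => ¬ P ≤ p)).card : ℝ) := by rw [sum_const, nsmul_eq_mul, mul_one]
      _ ≤ P := by
          have h6 : S.filter (fun p => ¬ P ≤ p) ⊆ range P := by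
            intro p hp
            exact mem_range.2 (not_le.1 (mem_filter.1 hp).2)
          have h7 := card_le_card h6
          rw [card_range] at h7
          exact_mod_cast h7
  rw [← sum_filter_add_sum_filter_not S (fun p => P ≤ p)]
  exact add_le_add h3 h4

end Pool.Agent.H56.SS
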