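import Pool.Agent.H56.SS.RU

/-!
# Row RAX, part 1: elementary comparisons
-/

set_option autoImplicit false
set_option maxHeartbeats 400000

open Finset Filter Topology

namespace Pool.Agent.H56.SS

open Pool.Agent.H91.LF (Mean Dil Bdd bdd_const bdd_add bdd_mul bdd_smul bdd_sub bdd_sum bdd_comp)
open Pool.Agent.H47.RP Pool.Agent.H36.RP
open Pool.Agent.H12.RPR (dil1 dens sub_E_le sg_abs sg_mul uc_eq disc)

/-- the quadratic form -/
noncomputable def QQ (s a b : ℝ) : ℝ := ((a - s * b) / 2) ^ 2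

lemma QQ_nonneg (s a b : ℝ) : 0 ≤ QQ s a b := sq_nonneg _

lemma QQ_le {s a b : ℝ} (hs : |s| = 1) (ha : |a| ≤ 1) (hb : |b| ≤ 1) : QQ s a b ≤ 1 := by
  have h1 : |(a - s * b) / 2| ≤ 1 := by
    rw [abs_div, abs_two, div_le_one two_pos]
    refine (abs_sub _ _).trans ?_
    rw [abs_mul, hs, one_mul]
    linarith
  unfold QQ
  rw [← sq_abs]
  exact pow_le_one₀ (abs_nonneg _) h1

lemma QQ_abs {s a b : ℝ} (hs : |s| = 1) (ha : |a| ≤ 1) (hb : |b| ≤ 1) : |QQ s a b| ≤ 1 := by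
  rw [abs_of_nonneg (QQ_nonneg _ _ _)]
  exact QQ_le hs ha hb

lemma QQ_lip {s a b a' b' : ℝ} (hs : |s| = 1) (ha : |a| ≤ 1) (hb : |b| ≤ 1) (ha' : |a'| ≤ 1)
    (hb' : |b'| ≤ 1) : |QQ s a b - QQ s a' b'| ≤ |a - a'| + |b - b'| := by
  have e : QQ s a b - QQ s a' b' =
      ((a - a') - s * (b - b')) * (((a - s * b) + (a' - s * b')) / 4) := by
    unfold QQ
    ring
  have h1 : |((a - s * b) + (a' - s * b')) / 4| ≤ 1 := by
    rw [abs_div, abs_of_pos (by norm_num : (0 : ℝ) < 4), div_le_one (by norm_num)]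
    have h2 := abs_add_le (a - s * b) (a' - s * b')
    have h3 : |a - s * b| ≤ |a| + |s * b| := abs_sub _ _
    have h4 : |a' - s * b'| ≤ |a'| + |s * b'| := abs_sub _ _
    rw [abs_mul, hs, one_mul] at h3 h4
    linarith
  have h2 : |(a - a') - s * (b - b')| ≤ |a - a'| + |b - b'| := by
    refine (abs_sub _ _).trans ?_
    rw [abs_mul, hs, one_mul]
  rw [e, abs_mul]
  calc _ ≤ |(a - a') - s * (b - b')| * 1 := mul_le_mul_of_nonneg_left h1 (abs_nonneg _)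
    _ ≤ _ := by rw [mul_one]; exact h2

/-- the comparison of the means of `qa` and `qe` through the multiples of `p` -/
lemma core (M : Mean 1) (hM : Dil M) (p : ℕ) (hpp : p.Prime) (H : ℕ) (t : ℝ) (ht : 0 ≤ t)
    (gg qa qe : ℤ → ℝ) (hg0 : ∀ n, 0 ≤ gg n ∧ gg n ≤ 1) (hqa : ∀ n, |qa n| ≤ 1)
    (hqe0 : ∀ n, 0 ≤ qe n ∧ qe n ≤ 1) (h1 : ∀ n, |qa n - gg n| ≤ 2 * t)
    (h2 : ∀ m : ℤ, (∀ k ∈ Icc (-(H : ℤ)) H, ¬ (p : ℤ) ∣ m + k) → |gg (p * m) - qe m| ≤ 3 * t) :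
    |M.E (fun ω => qa (ω 0)) - M.E (fun ω => qe (ω 0))| ≤ 5 * t + (2 * H + 1) * (1 / p) +
      |M.E (fun ω => (p : ℝ) * if (p : ℤ) ∣ ω 0 then gg (ω 0) else 0) -
        M.E (fun ω => gg (ω 0))| := by
  have hp0 : (0 : ℝ) < p := by exact_mod_cast hpp.pos
  have hgb : ∀ n, |gg n| ≤ 1 := fun n => abs_le.2 ⟨by linarith [(hg0 n).1], (hg0 n).2⟩
  have hqeb : ∀ n, |qe n| ≤ 1 := fun n => abs_le.2 ⟨by linarith [(hqe0 n).1], (hqe0 n).2⟩
  have s1 : |M.E (fun ω => qa (ω 0)) - M.E (fun ω => gg (ω 0))| ≤ 2 * t := by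
    have h3 := sub_E_le M (f := fun ω => qa (ω 0)) (g := fun ω => gg (ω 0))
      ⟨1, fun ω => hqa _⟩ ⟨1, fun ω => hgb _⟩ (bdd_const (2 * t)) fun ω => h1 _
    rw [M.E_const] at h3
    exact h3
  set hh : ℤ → ℝ := fun n => 3 * t +
    ∑ k ∈ Icc (-(H : ℤ)) H, (if (p : ℤ) ∣ n + k then (1 : ℝ) else 0) with hhh
  have hib : ∀ k : ℤ, Bdd (fun n : ℤ => if (p : ℤ) ∣ n + k then (1 : ℝ) else 0) :=
    fun k => ⟨1, fun n => by dsimp only; split_ifs <;> simp⟩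
  have hhb : Bdd hh := bdd_add (bdd_const _) (bdd_sum _ _ fun k _ => hib k)
  have hhE : M.E (fun ω => hh (ω 0)) = 3 * t + ((2 * H + 1) * (1 / p)) := by
    have h1 : Bdd (fun ω : Fin 1 → ℤ => ∑ k ∈ Icc (-(H : ℤ)) H,
        (if (p : ℤ) ∣ ω 0 + k then (1 : ℝ) else 0)) :=
      bdd_sum _ _ fun k _ => bdd_comp (hib k) fun ω : Fin 1 → ℤ => ω 0
    rw [hhh, M.add _ _ (bdd_const _) h1, M.E_const,
      M.E_sum _ _ fun k _ => bdd_comp (hib k) fun ω : Fin 1 → ℤ => ω 0]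
    rw [sum_congr rfl fun k _ => dens M hM p hpp k, sum_const, nsmul_eq_mul, Int.card_Icc]
    have h2 : (((H : ℤ) + 1 - -(H : ℤ)).toNat : ℝ) = 2 * H + 1 := by
      have h3 : ((H : ℤ) + 1 - -(H : ℤ)) = ((2 * H + 1 : ℕ) : ℤ) := by push_cast; ring
      rw [h3, Int.toNat_natCast]
      push_cast
      ring
    rw [h2]
  have hpt : ∀ m : ℤ, |gg ((p : ℤ) * m) - qe m| ≤ hh m := by
    intro m
    have h7 : (0 : ℝ) ≤ ∑ k ∈ Icc (-(H : ℤ)) H, (if (p : ℤ) ∣ m + k then (1 : ℝ) else 0) :=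
      sum_nonneg fun k _ => by split_ifs <;> norm_num
    by_cases hd : ∃ k ∈ Icc (-(H : ℤ)) H, (p : ℤ) ∣ m + k
    · obtain ⟨k, hk, hd⟩ := hd
      have h1 : (1 : ℝ) ≤ ∑ k ∈ Icc (-(H : ℤ)) H, (if (p : ℤ) ∣ m + k then (1 : ℝ) else 0) := by
        have h2 := single_le_sum (f := fun k : ℤ => if (p : ℤ) ∣ m + k then (1 : ℝ) else 0)
          (fun k _ => by split_ifs <;> norm_num) hk
        rwa [if_pos hd] at h2
      have h3 : |gg ((p : ℤ) * m) - qe m| ≤ 1 := by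
        rw [abs_sub_le_iff]
        have h4 := hg0 ((p : ℤ) * m)
        have h6 := hqe0 m
        constructor <;> linarith
      change _ ≤ 3 * t + ∑ k ∈ Icc (-(H : ℤ)) H, (if (p : ℤ) ∣ m + k then (1 : ℝ) else 0)
      linarith
    · push Not at hd
      change _ ≤ 3 * t + ∑ k ∈ Icc (-(H : ℤ)) H, (if (p : ℤ) ∣ m + k then (1 : ℝ) else 0)
      linarith [h2 m hd]
  clear_value hh
  have s2 : |M.E (fun ω => (p : ℝ) * if (p : ℤ) ∣ ω 0 then gg (ω 0) else 0) -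
      M.E (fun ω => qe (ω 0))| ≤ 3 * t + ((2 * H + 1) * (1 / p)) := by
    rw [← hhE, ← dil1 M hM p hpp hh hhb, ← dil1 M hM p hpp qe ⟨1, fun n => hqeb _⟩]
    have hbi : ∀ q : (Fin 1 → ℤ) → ℝ, Bdd q →
        Bdd (fun ω => (p : ℝ) * if (p : ℤ) ∣ ω 0 then q ω else 0) := by
      intro q hq
      refine bdd_smul _ ?_
      obtain ⟨D, hD⟩ := hq
      refine ⟨D, fun ω => ?_⟩
      dsimp only
      split_ifs
      · exact hD ω
      · rw [abs_zero]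
        exact (abs_nonneg _).trans (hD ω)
    have b1 : Bdd (fun ω : Fin 1 → ℤ => gg (ω 0)) := ⟨1, fun ω => hgb _⟩
    have b2 : Bdd (fun ω : Fin 1 → ℤ => qe (ω 0 / p)) := ⟨1, fun ω => hqeb _⟩
    have b3 : Bdd (fun ω : Fin 1 → ℤ => hh (ω 0 / p)) := by
      obtain ⟨D, hD⟩ := hhb
      exact ⟨D, fun ω => hD _⟩
    refine sub_E_le M (hbi _ b1) (hbi _ b2) (hbi _ b3) ?_
    intro ω
    by_cases hd : (p : ℤ) ∣ ω 0
    · rw [if_pos hd, if_pos hd, if_pos hd, ← mul_sub, abs_mul, abs_of_pos hp0]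
      refine mul_le_mul_of_nonneg_left ?_ hp0.le
      obtain ⟨m, hm⟩ := hd
      have hpz : (p : ℤ) ≠ 0 := by exact_mod_cast hpp.ne_zero
      rw [hm, Int.mul_ediv_cancel_left m hpz]
      exact hpt m
    · rw [if_neg hd, if_neg hd, if_neg hd]
      simp
  generalize M.E (fun ω => qa (ω 0)) = a at s1 ⊢
  generalize M.E (fun ω => gg (ω 0)) = b at s1 ⊢
  generalize M.E (fun ω => (p : ℝ) * if (p : ℤ) ∣ ω 0 then gg (ω 0) else 0) = c at s2 ⊢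
  generalize M.E (fun ω => qe (ω 0)) = e at s2 ⊢
  have h3 := abs_sub_le a b e
  have h4 := abs_sub_le b c e
  rw [abs_sub_comm b c] at h4
  linarith

/-- the words of length `2 H + 1` -/
abbrev Al (N H : ℕ) : Type := ↥(Finset.Icc (-(H : ℤ)) H) → Fin (2 * N + 1)

/-- the word at `n` -/
def yy {N : ℕ} (H : ℕ) (x : ℤ → Fin (2 * N + 1)) (n : ℤ) : Al N H := fun i => x (n + i)

/-- the values of a word -/
noncomputable def rr {N : ℕ} (H : ℕ) (r : Fin (2 * N + 1) → ℝ) (a : Al N H) (i : ℤ) : ℝ :=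
  if h : i ∈ Finset.Icc (-(H : ℤ)) H then r (a ⟨i, h⟩) else 0

lemma rr_abs {N : ℕ} (H : ℕ) {r : Fin (2 * N + 1) → ℝ} (hr : ∀ a, |r a| ≤ 1) (a : Al N H)
    (i : ℤ) : |rr H r a i| ≤ 1 := by
  unfold rr
  split_ifs
  · exact hr _
  · simp

lemma rr_yy {N : ℕ} (H : ℕ) (r : Fin (2 * N + 1) → ℝ) (x : ℤ → Fin (2 * N + 1)) (n i : ℤ)
    (hi : |i| ≤ H) : rr H r (yy H x n) i = r (x (n + i)) := by
  unfold rr yy
  rw [dif_pos (Finset.mem_Icc.2 (abs_le.1 hi))]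

lemma rr_yy0 {N : ℕ} (H : ℕ) (r : Fin (2 * N + 1) → ℝ) (x : ℤ → Fin (2 * N + 1)) (n : ℤ) :
    rr H r (yy H x n) 0 = r (x n) := by
  rw [rr_yy H r x n 0 (by rw [abs_zero]; exact Int.natCast_nonneg _), add_zero]

/-- the function of the words -/
noncomputable def gq {N : ℕ} (H : ℕ) (r : Fin (2 * N + 1) → ℝ) (Φ : (ℤ → ℝ) → ℝ) (s : ℝ)
    (z : ℤ → Al N H) : ℝ :=
  QQ s (Φ (rr H r (z 0))) (Φ (fun k => s * rr H r (z k) 0))

end Pool.Agent.H56.SS
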