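import Pool.Agent.H56.SS.Tg

/-!
# Row RU: decoupling for words with letters in a finite set, with the constant
-/

set_option autoImplicit false

open MeasureTheory ProbabilityTheory Filter Topology Finset

namespace Pool.Agent.H56.SS

open Pool.Agent.H91.LF (Mean Dil Bdd)
open Pool.Agent.H28.LFP (blk blk_le decc)
open Pool.Agent.H95.RPR (cst add_cst abs_E_class)

theorem pf_RU : T_RU := by
  classical
  intro M A _ x H g hg hloc S hS
  set G : ℕ → (Fin 1 → ℤ) → ℝ := fun p ω => g p (fun k => x (ω 0 + p * (k + H))) with hGdef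
  have hGb : ∀ p ω, |G p ω| ≤ 1 := fun p ω => hg p _
  set P := S.sup id with hP
  have hdec := decc M (fun ω : Fin 1 → ℤ => x (ω 0)) (fun _ => 1) 1 (4 * H + 2) P G S
    (fun p hp => ⟨hS p hp, Finset.le_sup (f := id) hp, Nat.coprime_one_left p⟩)
    (fun p _ => hGb p) (by
      intro p hp m hpm ω ω' hwin k hk
      refine hloc p _ _ fun j hj => ?_
      have hj2 := abs_le.1 hj
      have hk2 := hk 0
      have h1 : p ≤ 2 ^ (m + 1) := blk_le hpm
      obtain ⟨a, ha⟩ : ∃ a : ℕ, (a : ℤ) = k 0 + p * (j + H) :=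
        ⟨(k 0 + p * (j + H)).toNat, Int.toNat_of_nonneg (by
          have : 0 ≤ (p : ℤ) * (j + H) := mul_nonneg (by omega) (by omega)
          omega)⟩
      have h2 : a < (4 * H + 2) * 2 ^ m := by
        have h3 : (a : ℤ) < p * (2 * H + 1) := by
          rw [ha]
          have : (p : ℤ) * (j + H) ≤ p * (2 * H) := mul_le_mul_of_nonneg_left (by omega) (by omega)
          linarith
        have h4 : a < p * (2 * H + 1) := by exact_mod_cast h3
        have h5 : p * (2 * H + 1) ≤ 2 ^ (m + 1) * (2 * H + 1) := Nat.mul_le_mul_right _ h1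
        have h6 : 2 ^ (m + 1) * (2 * H + 1) = (4 * H + 2) * 2 ^ m := by rw [pow_succ]; ring
        omega
      have h3 := hwin a h2
      have e1 : ∀ w : Fin 1 → ℤ, (w + ((1 : ℕ) : ℤ) • k) 0 + p * (j + H) =
          (w + (a : ℤ) • (fun _ => (1 : ℤ) : Fin 1 → ℤ)) 0 := by
        intro w
        simp only [Pi.add_apply, Pi.smul_apply, smul_eq_mul, Nat.cast_one, one_mul, mul_one, ha]
        ring
      rw [e1, e1, h3])
    (by
      intro p hp
      have h1 := abs_E_class M p (hS p hp).pos (G p) (hGb p)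
      have e : (fun ω : Fin 1 → ℤ => (p : ℝ) ^ 1 * if ∀ i, (p : ℤ) ∣ ω i then G p ω else 0) =
          fun ω => (p : ℝ) * if (p : ℤ) ∣ ω 0 then G p ω else 0 := by
        funext ω
        rw [pow_one]
        congr 1
        refine if_congr ⟨fun h => h 0, fun h i => ?_⟩ rfl rfl
        rw [Subsingleton.elim i 0]
        exact h
      rw [e]
      exact h1)
    (fun p _ => M.abs_E_le (hGb p))
  refine le_of_eq_of_le (Finset.sum_congr rfl fun p hp => ?_) hdec
  have hv : ∀ ω : Fin 1 → ℤ, G p ω =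
      g p (fun k => x ((ω + cst (p * H)) 0 + p * k)) := by
    intro ω
    simp only [hGdef]
    congr 1
    funext k
    congr 1
    rw [add_cst]
    ring
  have e1 : M.E (G p) = M.E (fun ω => g p (fun k => x (ω 0 + p * k))) := by
    have h1 := M.shift (cst (p * H)) (fun ω => g p (fun k => x (ω 0 + p * k)))
      ⟨1, fun ω => hg p _⟩
    rw [← h1]
    congr 1
    funext ω
    exact hv ω
  have e2 : M.E (fun ω => (p : ℝ) ^ 1 * if ∀ i, (p : ℤ) ∣ ω i then G p ω else 0) =
      M.E (fun ω => (p : ℝ) * if (p : ℤ) ∣ ω 0 then g p (fun k => x (ω 0 + p * k)) else 0) := by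
    have h1 := M.shift (cst (p * H)) (fun ω => (p : ℝ) *
      if (p : ℤ) ∣ ω 0 then g p (fun k => x (ω 0 + p * k)) else 0) ⟨p, fun ω => by
        rw [abs_mul, abs_of_nonneg (Nat.cast_nonneg p)]
        split_ifs
        · exact mul_le_of_le_one_right (Nat.cast_nonneg p) (hg p _)
        · rw [abs_zero, mul_zero]
          exact Nat.cast_nonneg p⟩
    rw [← h1]
    congr 1
    funext ω
    rw [pow_one, hv ω]
    congr 1
    refine if_congr ?_ rfl rfl
    have h2 : (p : ℤ) ∣ (ω + cst (p * H)) 0 ↔ (p : ℤ) ∣ ω 0 := by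
      rw [add_cst]
      exact dvd_add_left (Dvd.intro _ rfl)
    rw [h2]
    refine ⟨fun h => h 0, fun h i => ?_⟩
    rw [Subsingleton.elim i 0]
    exact h
  rw [e1, e2]

end Pool.Agent.H56.SS
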