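import Pool.Agent.H47.RPR.Fin3
import Pool.Agent.H28.DS.Main

/-!
# The predictable part of a real multiplicative function. Targets

Problem MP_34b97f_an. `u` is multiplicative with values in `[-1,1]`, `κ` a logarithmically
quasi-generic measure, `P₀` the conditional expectation of `x 0` given the remote past. There are
local functions `b` of the past of `u`, close to `P₀`, with `b (p n) ≈ u p * b n` for almost all
primes `p`.
-/

set_option autoImplicit false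

open MeasureTheory ProbabilityTheory Filter Topology Finset

namespace Pool.Agent.H56.SS

open Pool.Agent.H89.MT (I1 X pt z1 o1 m1 IsMult lavg)
open Pool.Agent.H91.LF (Mean Dil Bdd)
open Pool.Agent.H36.RP (S past remote remote_le mulI dil Local)
open Pool.Agent.H47.RP (sg UC)

/-- the sign, as an element of `[-1,1]`; `1` at `0` -/
noncomputable def sgn (t : ℝ) : I1 := if t < 0 then m1 else o1

/-- a function of the coordinates `x (-m), x (-m-1), ..., x (-m-H+1)` -/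
def loc (m H : ℕ) (φ : (Fin H → I1) → ℝ) (x : X) : ℝ := φ (fun j => x (-((m : ℤ) + (j : ℕ))))

/-- the conditional expectation of the coordinate `x 0` given the remote past -/
noncomputable def P0 (κ : Measure X) : X → ℝ := κ[fun x => (x 0 : ℝ) | remote]

/-- a thin set of natural numbers -/
def Thin (E : Set ℕ) : Prop := Summable (E.indicator fun n : ℕ => (1 : ℝ) / n)

open Classical in
/-- [RU] Decoupling for words with letters in a finite set, with the constant. -/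
def T_RU : Prop := ∀ (M : Mean 1) (A : Type) (_ : Fintype A) (x : ℤ → A) (H : ℕ)
  (g : ℕ → (ℤ → A) → ℝ), (∀ p z, |g p z| ≤ 1) →
    (∀ p, ∀ z z' : ℤ → A, (∀ k : ℤ, |k| ≤ H → z k = z' k) → g p z = g p z') →
    ∀ S : Finset ℕ, (∀ p ∈ S, p.Prime) →
      ∑ p ∈ S, (1 / (p : ℝ)) * (M.E (fun ω => (p : ℝ) * if (p : ℤ) ∣ ω 0 then
          g p (fun k => x (ω 0 + p * k)) else 0) -
        M.E (fun ω => g p (fun k => x (ω 0 + p * k)))) ^ 2 ≤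
      4 * (((4 * H + 2 : ℕ) : ℝ) * Real.log (Fintype.card A))

/-- [RAX] The entropy decrement for pairs of words, with a constant which does not depend on the
mean. -/
def T_RAX : Prop := ∀ F : ℤ → ℝ, (∀ n, |F n| ≤ 1) →
  (∀ (p : ℕ) (m : ℤ), p.Prime → ¬ (p : ℤ) ∣ m → F (p * m) = F p * F m) →
  ∀ (H : ℕ) (Φ : (ℤ → ℝ) → ℝ), (∀ z, |Φ z| ≤ 1) → UC H Φ → ∀ ε : ℝ, 0 < ε →
    ∃ δ C : ℝ, 0 < δ ∧ ∀ M : Mean 1, Dil M → ∀ S : Finset ℕ, (∀ p ∈ S, p.Prime ∧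
      1 - δ ≤ |F p| ∧ ε < |M.E (fun ω => (Φ (fun k => F (ω 0 + k)) -
          sg (F p) * Φ (fun k => sg (F p) * F (ω 0 + p * k))) ^ 2) -
        M.E (fun ω => (Φ (fun k => F (p * ω 0 + k)) -
          sg (F p) * Φ (fun k => F (ω 0 + k))) ^ 2)|) → ∑ p ∈ S, 1 / (p : ℝ) ≤ C

/-- [THN] Approximate invariance under the dilations outside a thin set of primes. -/
def T_THN : Prop := ∀ u : ℕ → I1, IsMult u →
  Summable (fun p : ℕ => if p.Prime then (1 - |(u p : ℝ)|) / p else 0) →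
  ∀ (κ : Measure X) [IsProbabilityMeasure κ], Pool.Agent.H36.RP.QuasiGeneric u κ →
  ∀ (G : X → ℝ) (H : ℕ), Continuous G → Local H G → ∀ ε : ℝ, 0 < ε →
    ∃ E : Set ℕ, Thin E ∧ ∀ p : ℕ, p.Prime → p ∉ E →
      |∫ x, G (dil (sgn (u p)) p x) ∂κ - ∫ x, G x ∂κ| ≤ ε

/-- [APY] Approximation of `P0` by functions of finitely many coordinates of the past. -/
def T_APY : Prop := ∀ (κ : Measure X) [IsProbabilityMeasure κ] (m : ℕ) (ε : ℝ), 0 < ε →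
  ∃ (H : ℕ) (φ : (Fin H → I1) → ℝ), Continuous φ ∧ (∀ y, |φ y| ≤ 1) ∧
    ∫ x, (P0 κ x - loc m H φ x) ^ 2 ∂κ ≤ ε

/-- [PRM] `P0` is the prediction from the past. -/
def T_PRM : Prop := ∀ (κ : Measure X) [IsProbabilityMeasure κ], Pool.Agent.H21.WN.PredRem κ →
  ∀ (h : X → ℝ) (C : ℝ), Measurable[past (-1)] h → (∀ x, |h x| ≤ C) →
    ∫ x, (x 0 : ℝ) * h x ∂κ = ∫ x, P0 κ x * h x ∂κ

/-- [SLF] The prediction along the progressions. -/
def T_SLF : Prop := ∀ u : ℕ → I1, IsMult u →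
  Summable (fun p : ℕ => if p.Prime then (1 - |(u p : ℝ)|) / p else 0) →
  ∀ (κ : Measure X) [IsProbabilityMeasure κ], Pool.Agent.H89.MT.QuasiGeneric u κ →
  ∀ (m H : ℕ) (φ : (Fin H → I1) → ℝ), 0 < m → Continuous φ → (∀ y, |φ y| ≤ 1) →
    ∀ ε : ℝ, ∫ x, (P0 κ x - loc m H φ x) ^ 2 ∂κ < ε →
    ∃ E : Set ℕ, Thin E ∧ ∀ p : ℕ, p.Prime → p ∉ E →
      ∫ x, (P0 κ x - (sgn (u p) : ℝ) * loc m H φ (dil (sgn (u p)) p x)) ^ 2 ∂κ ≤ ε

/-- [MUL] From the measure to the arithmetic. -/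
def T_MUL : Prop := ∀ u : ℕ → I1, IsMult u →
  Summable (fun p : ℕ => if p.Prime then (1 - |(u p : ℝ)|) / p else 0) →
  ∀ (κ : Measure X) [IsProbabilityMeasure κ] (N : ℕ → ℕ), Tendsto N atTop atTop →
  (∀ F : C(X, ℝ), Tendsto (fun k => lavg (N k) fun n => F (pt u n)) atTop (𝓝 (∫ x, F x ∂κ))) →
  ∀ (m H : ℕ) (φ : (Fin H → I1) → ℝ), Continuous φ → (∀ y, |φ y| ≤ 1) →
    ∀ (ε : ℝ) (E : Set ℕ), 0 < ε → Thin E → (∀ p : ℕ, p.Prime → p ∉ E →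
      ∫ x, (loc m H φ x - (sgn (u p) : ℝ) * loc m H φ (dil (sgn (u p)) p x)) ^ 2 ∂κ ≤ ε) →
    ∃ C : ℝ, ∀ F : Finset ℕ, (∀ p ∈ F, p.Prime) → ∀ᶠ k in atTop,
      ∑ p ∈ F, (1 / (p : ℝ)) * lavg (N k) (fun n => (loc m H φ (pt u (p * n)) -
        (u p : ℝ) * loc m H φ (pt u n)) ^ 2) ≤ C + 3 * ε * ∑ p ∈ F, 1 / (p : ℝ)

/-- [FIN] The theorem. -/
def T_FIN : Prop := ∀ (u : ℕ → I1), IsMult u → ∀ (κ : Measure X) [IsProbabilityMeasure κ]
  (N : ℕ → ℕ), Tendsto N atTop atTop →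
  (∀ F : C(X, ℝ), Tendsto (fun k => lavg (N k) fun n => F (pt u n)) atTop (𝓝 (∫ x, F x ∂κ))) →
  ∃ c : ℝ, c = ∫ x, P0 κ x ^ 2 ∂κ ∧ (Pool.Agent.H92.RR.Pred u κ ↔ c = 0) ∧
    ∀ (ε : ℝ) (m : ℕ), 0 < ε → 0 < m →
      ∃ (H : ℕ) (φ : (Fin H → I1) → ℝ), Continuous φ ∧ (∀ y, |φ y| ≤ 1) ∧
        (∀ᶠ k in atTop, |lavg (N k) (fun n => (u n : ℝ) * loc m H φ (pt u n)) - c| ≤ ε ∧
          |lavg (N k) (fun n => loc m H φ (pt u n) ^ 2) - c| ≤ ε) ∧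
        (∀ (L : ℕ) (ψ : (Fin L → I1) → ℝ), Continuous ψ → (∀ y, |ψ y| ≤ 1) → ∀ᶠ k in atTop,
          |lavg (N k) (fun n => ((u n : ℝ) - loc m H φ (pt u n)) * loc 1 L ψ (pt u n))| ≤ ε) ∧
        (∃ E : Set ℕ, Thin E ∧ ∀ p : ℕ, p.Prime → p ∉ E → ∀ᶠ k in atTop,
          lavg (N k) (fun n => (loc m H φ (pt u n) -
            (sgn (u p) : ℝ) * loc m H φ (dil (sgn (u p)) p (pt u n))) ^ 2) ≤ ε) ∧
        (∃ C : ℝ, ∀ F : Finset ℕ, (∀ p ∈ F, p.Prime) → ∀ᶠ k in atTop,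
          ∑ p ∈ F, (1 / (p : ℝ)) * lavg (N k) (fun n => (loc m H φ (pt u (p * n)) -
            (u p : ℝ) * loc m H φ (pt u n)) ^ 2) ≤ C + ε * ∑ p ∈ F, 1 / (p : ℝ))

end Pool.Agent.H56.SS
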